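import Mathlib

set_option autoImplicit false

open Finset MvPolynomial
open scoped BigOperators

namespace Pool.Agent.H26perm

/-! ## Averaging operators -/

/-- The averaging operator of a finite family of multipliers. -/
noncomputable def op {ι R : Type*} [Fintype ι] [Mul R] (s : ι → R) (Φ : R → ℝ) : R → ℝ :=
  fun P => 𝔼 i, Φ (P * s i)

section op

variable {ι κ R : Type*} [Fintype ι] [Fintype κ] [CommMonoid R]

theorem op_mono {s : ι → R} {Φ Ψ : R → ℝ} (h : ∀ P, Φ P ≤ Ψ P) (P : R) :
    op s Φ P ≤ op s Ψ P :=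
  Finset.expect_le_expect fun _ _ => h _

theorem op_comm (s : ι → R) (t : κ → R) (Φ : R → ℝ) : op s (op t Φ) = op t (op s Φ) := by
  funext P
  simp only [op]
  rw [Finset.expect_comm]
  refine Finset.expect_congr rfl fun i _ => Finset.expect_congr rfl fun j _ => ?_
  rw [mul_right_comm]

theorem iter_mono {s : ι → R} {Φ Ψ : R → ℝ} (h : ∀ P, Φ P ≤ Ψ P) (k : ℕ) (P : R) :
    (op s)^[k] Φ P ≤ (op s)^[k] Ψ P := by
  induction k generalizing P with
  | zero => exact h P
  | succ k ih =>
    rw [Function.iterate_succ_apply', Function.iterate_succ_apply']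
    exact op_mono ih P

theorem iter_comm (s : ι → R) (t : κ → R) (k : ℕ) (Φ : R → ℝ) :
    (op s)^[k] (op t Φ) = op t ((op s)^[k] Φ) := by
  induction k generalizing Φ with
  | zero => rfl
  | succ k ih =>
    rw [Function.iterate_succ_apply, Function.iterate_succ_apply, op_comm, ih]

theorem op_const [Nonempty ι] (s : ι → R) (c : ℝ) (P : R) : op s (fun _ => c) P = c := by
  simp [op]

theorem iter_const [Nonempty ι] (s : ι → R) (c : ℝ) (k : ℕ) (P : R) :
    (op s)^[k] (fun _ => c) P = c := by
  induction k generalizing P with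
  | zero => rfl
  | succ k ih =>
    rw [Function.iterate_succ_apply']
    have : (op s)^[k] (fun _ => c) = fun _ => c := funext ih
    rw [this, op_const]

theorem op_add (s : ι → R) (Φ Ψ : R → ℝ) (P : R) :
    op s (fun Q => Φ Q + Ψ Q) P = op s Φ P + op s Ψ P := by
  simp only [op]; rw [Finset.expect_add_distrib]

theorem op_sub (s : ι → R) (Φ Ψ : R → ℝ) (P : R) :
    op s (fun Q => Φ Q - Ψ Q) P = op s Φ P - op s Ψ P := by
  simp only [op]; rw [Finset.expect_sub_distrib]

theorem op_mul_left (s : ι → R) (c : ℝ) (Φ : R → ℝ) (P : R) :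
    op s (fun Q => c * Φ Q) P = c * op s Φ P := by
  simp only [op]; rw [Finset.mul_expect]

theorem iter_add (s : ι → R) (Φ Ψ : R → ℝ) (k : ℕ) (P : R) :
    (op s)^[k] (fun Q => Φ Q + Ψ Q) P = (op s)^[k] Φ P + (op s)^[k] Ψ P := by
  induction k generalizing P with
  | zero => rfl
  | succ k ih =>
    rw [Function.iterate_succ_apply', Function.iterate_succ_apply', Function.iterate_succ_apply',
      ← op_add]
    congr 1
    funext Q; exact ih Q

theorem iter_sub (s : ι → R) (Φ Ψ : R → ℝ) (k : ℕ) (P : R) :
    (op s)^[k] (fun Q => Φ Q - Ψ Q) P = (op s)^[k] Φ P - (op s)^[k] Ψ P := by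
  induction k generalizing P with
  | zero => rfl
  | succ k ih =>
    rw [Function.iterate_succ_apply', Function.iterate_succ_apply', Function.iterate_succ_apply',
      ← op_sub]
    congr 1
    funext Q; exact ih Q

theorem iter_mul_left (s : ι → R) (c : ℝ) (Φ : R → ℝ) (k : ℕ) (P : R) :
    (op s)^[k] (fun Q => c * Φ Q) P = c * (op s)^[k] Φ P := by
  induction k generalizing P with
  | zero => rfl
  | succ k ih =>
    rw [Function.iterate_succ_apply', Function.iterate_succ_apply', ← op_mul_left]
    congr 1
    funext Q; exact ih Q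

/-- Exchange of an average over parameters with the operator. -/
theorem iter_expect (s : ι → R) (Φ : κ → R → ℝ) (k : ℕ) (P : R) :
    (op s)^[k] (fun Q => 𝔼 w, Φ w Q) P = 𝔼 w, (op s)^[k] (Φ w) P := by
  induction k generalizing P with
  | zero => rfl
  | succ k ih =>
    rw [Function.iterate_succ_apply']
    have : (op s)^[k] (fun Q => 𝔼 w, Φ w Q) = fun Q => 𝔼 w, (op s)^[k] (Φ w) Q := funext ih
    rw [this]
    simp only [op, Function.iterate_succ_apply']
    rw [Finset.expect_comm]

/-- The iterated operator is an average over tuples. -/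
theorem iter_eq (s : ι → R) (Φ : R → ℝ) (k : ℕ) (P : R) :
    (op s)^[k] Φ P = 𝔼 x : Fin k → ι, Φ (P * ∏ i, s (x i)) := by
  induction k generalizing P with
  | zero =>
    rw [Fintype.expect_eq_sum_div_card]
    simp
  | succ k ih =>
    rw [Function.iterate_succ_apply']
    have h1 : op s ((op s)^[k] Φ) P = 𝔼 v, 𝔼 y : Fin k → ι, Φ (P * s v * ∏ i, s (y i)) := by
      simp only [op]
      exact Finset.expect_congr rfl fun v _ => ih _
    rw [h1, ← Finset.expect_product', Finset.univ_product_univ]
    symm
    refine Fintype.expect_equiv (Fin.consEquiv (fun _ => ι)).symm _ _ fun x => ?_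
    simp only [Fin.consEquiv, Equiv.coe_fn_symm_mk]
    congr 1
    rw [Fin.prod_univ_succ, mul_assoc]
    rfl

end op

/-! ## Averages over finite vector spaces -/

section lin

variable {F W : Type*} [Field F] [Fintype F] [AddCommGroup W] [Module F W] [Fintype W]

theorem expect_shift (f : W → ℝ) (w₀ : W) : 𝔼 w, f w = 𝔼 w, 𝔼 t : F, f (w + t • w₀) := by
  rw [Finset.expect_comm]
  have h : ∀ t : F, 𝔼 w, f (w + t • w₀) = 𝔼 w, f w := fun t =>
    Fintype.expect_equiv (Equiv.addRight (t • w₀)) _ _ fun w => rfl
  simp only [h]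
  rw [Fintype.expect_const]

open Classical in
theorem expect_lin (φ : W →ₗ[F] F) :
    𝔼 w, (if φ w = 0 then (1 : ℝ) else 0) =
      1 / Fintype.card F + (1 - 1 / Fintype.card F) * (if φ = 0 then 1 else 0) := by
  by_cases h : φ = 0
  · subst h
    simp
  · rw [if_neg h, mul_zero, add_zero]
    obtain ⟨w₀, hw₀⟩ : ∃ w₀, φ w₀ ≠ 0 := by
      by_contra hc
      push Not at hc
      exact h (LinearMap.ext hc)
    rw [expect_shift (F := F) _ w₀]
    have h2 : ∀ w, 𝔼 t : F, (if φ (w + t • w₀) = 0 then (1 : ℝ) else 0) = 1 / Fintype.card F := by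
      intro w
      rw [Fintype.expect_eq_sum_div_card]
      congr 1
      rw [Finset.sum_eq_single (- φ w / φ w₀)]
      · rw [if_pos]
        rw [map_add, map_smul, smul_eq_mul]
        field_simp
        ring
      · intro t _ ht
        rw [if_neg]
        intro h0
        apply ht
        rw [map_add, map_smul, smul_eq_mul] at h0
        rw [eq_div_iff hw₀]
        linear_combination h0
      · intro h; exact absurd (Finset.mem_univ _) h
    simp only [h2]
    rw [Fintype.expect_const]

end lin

end Pool.Agent.H26perm
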