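import Pool.Agent.H26perm.Rank

set_option autoImplicit false
set_option linter.unusedSectionVars false

open Finset MvPolynomial
open scoped BigOperators

namespace Pool.Agent.H26perm

section quad

variable {F : Type*} [Field F]

open Classical in
theorem quad_card [Fintype F] (a b c : F) (ha : a ≠ 0) :
    (Finset.univ.filter fun t : F => c + t * b + t ^ 2 * a = 0).card ≤ 2 := by
  by_contra hcon
  push Not at hcon
  obtain ⟨x, hx, y, hy, z, hz, hxy, hxz, hyz⟩ := Finset.two_lt_card.1 hcon
  simp only [Finset.mem_filter, Finset.mem_univ, true_and] at hx hy hz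
  have h1 : (x - y) * (b + (x + y) * a) = 0 := by linear_combination hx - hy
  have h2 : (x - z) * (b + (x + z) * a) = 0 := by linear_combination hx - hz
  have h3 : b + (x + y) * a = 0 := (mul_eq_zero.1 h1).resolve_left (sub_ne_zero.2 hxy)
  have h4 : b + (x + z) * a = 0 := (mul_eq_zero.1 h2).resolve_left (sub_ne_zero.2 hxz)
  have h5 : (y - z) * a = 0 := by linear_combination h3 - h4
  exact (mul_ne_zero (sub_ne_zero.2 hyz) ha) h5

end quad

variable {F : Type*} [Field F] [Fintype F] {n : ℕ}

theorem q_pos : (0 : ℝ) < Fintype.card F := by exact_mod_cast Fintype.card_pos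

theorem card_two_le : (2 : ℝ) ≤ Fintype.card F := by
  exact_mod_cast Fintype.one_lt_card

/-- Averages over `F^(n+1)` split. -/
theorem expect_cons (f : (Fin (n + 1) → F) → ℝ) :
    𝔼 x, f x = 𝔼 c : F, 𝔼 w : Fin n → F, f (Fin.cons c w) := by
  rw [← Finset.expect_product', Finset.univ_product_univ]
  symm
  refine Fintype.expect_equiv (Fin.consEquiv (fun _ => F)) _ _ fun x => ?_
  rfl

/-- A product of linear forms detects that `P` is not in `Z j`, in the form needed below. -/
theorem detect {j : ℕ} {Q : MvPolynomial (Fin n) F} (h : ¬ Z n (j + 2) Q) :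
    ∃ B : MvPolynomial (Fin n) F, (∀ R, Z n j R → Lam n (R * B) = 0) ∧
      ∃ a b : Fin n → F, Lam n (Q * B * ell n a * ell n b) ≠ 0 := by
  obtain ⟨S, hS, hne⟩ := exists_monomial h
  obtain ⟨k, hk⟩ : S.Nonempty := by rw [← Finset.card_pos]; omega
  have h1 : (S.erase k).card = j + 1 := by rw [Finset.card_erase_of_mem hk]; omega
  obtain ⟨l, hl⟩ : (S.erase k).Nonempty := by rw [← Finset.card_pos]; omega
  refine ⟨∏ i ∈ (S.erase k).erase l, X i, fun R hR => Z_prod hR _ ?_,
    Pi.single k 1, Pi.single l 1, ?_⟩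
  · rw [Finset.card_erase_of_mem hl]; omega
  · rw [ell_single, ell_single]
    rw [← Finset.mul_prod_erase S _ hk, ← Finset.mul_prod_erase (S.erase k) _ hl] at hne
    rw [show Q * (∏ i ∈ (S.erase k).erase l, X i) * X k * X l =
        Q * (X k * (X l * ∏ x ∈ (S.erase k).erase l, X x)) by ring]
    exact hne

theorem sq_average_zero (h2 : (2 : F) ≠ 0) (Q : MvPolynomial (Fin n) F) (a b : Fin n → F)
    (hab : Lam n (Q * ell n a * ell n b) ≠ 0) :
    1 - 2 / (Fintype.card F : ℝ) ≤ 𝔼 w, (1 - ind n 0 (Q * ell n w * ell n w)) := by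
  classical
  have hw₀ : ∃ w₀, Lam n (Q * ell n w₀ * ell n w₀) ≠ 0 := by
    by_contra hc
    push Not at hc
    apply hab
    have h3 := hc (a + b)
    have h4 := hc a
    have h5 := hc b
    have h6 : Q * ell n (a + b) * ell n (a + b) = Q * ell n a * ell n a +
        Q * ell n b * ell n b + (2 : F) • (Q * ell n a * ell n b) := by
      rw [map_add, Algebra.smul_def, map_ofNat]; ring
    rw [h6, map_add, map_add, h4, h5, map_smul, smul_eq_mul, zero_add, zero_add] at h3
    exact (mul_eq_zero.1 h3).resolve_left h2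
  obtain ⟨w₀, hw₀⟩ := hw₀
  rw [expect_shift (F := F) _ w₀]
  refine Finset.le_expect Finset.univ_nonempty fun w _ => ?_
  have h3 : ∀ t : F, Lam n (Q * ell n (w + t • w₀) * ell n (w + t • w₀)) =
      Lam n (Q * ell n w * ell n w) + t * (2 * Lam n (Q * ell n w * ell n w₀)) +
        t ^ 2 * Lam n (Q * ell n w₀ * ell n w₀) := by
    intro t
    have h6 : Q * ell n (w + t • w₀) * ell n (w + t • w₀) = Q * ell n w * ell n w +
        (t * 2) • (Q * ell n w * ell n w₀) + (t ^ 2) • (Q * ell n w₀ * ell n w₀) := by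
      rw [map_add, map_smul, Algebra.smul_def, Algebra.smul_def, Algebra.smul_def, map_mul,
        map_pow, map_ofNat]; ring
    rw [h6, map_add, map_add, map_smul, map_smul, smul_eq_mul, smul_eq_mul]; ring
  have h4 := quad_card (Lam n (Q * ell n w₀ * ell n w₀))
    (2 * Lam n (Q * ell n w * ell n w₀)) (Lam n (Q * ell n w * ell n w)) hw₀
  have h5 : 𝔼 t : F, (1 - ind n 0 (Q * ell n (w + t • w₀) * ell n (w + t • w₀))) =
      1 - 𝔼 t : F,
      (if Lam n (Q * ell n w * ell n w) + t * (2 * Lam n (Q * ell n w * ell n w₀)) +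
        t ^ 2 * Lam n (Q * ell n w₀ * ell n w₀) = 0 then (1 : ℝ) else 0) := by
    rw [Finset.expect_sub_distrib, Fintype.expect_const]
    congr 1
    refine Finset.expect_congr rfl fun t _ => ?_
    rw [← h3]
    by_cases h7 : Lam n (Q * ell n (w + t • w₀) * ell n (w + t • w₀)) = 0
    · rw [if_pos h7]; exact ind_of h7
    · rw [if_neg h7]; exact ind_of_not h7
  rw [h5, Fintype.expect_eq_sum_div_card, Finset.sum_boole]
  have h6 : ((Finset.univ.filter fun t : F => Lam n (Q * ell n w * ell n w) +
      t * (2 * Lam n (Q * ell n w * ell n w₀)) +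
        t ^ 2 * Lam n (Q * ell n w₀ * ell n w₀) = 0).card : ℝ) ≤ 2 := by exact_mod_cast h4
  have h8 := div_le_div_of_nonneg_right h6 (q_pos (F := F)).le
  linarith

/-- If `Q` is not in `Z (j+2)`, then the form `Q ℓ(w)²` is not in `Z j` for most `w`. -/
theorem sq_average (h2 : (2 : F) ≠ 0) (j : ℕ) (Q : MvPolynomial (Fin n) F) :
    (1 - 2 / Fintype.card F) * (1 - ind n (j + 2) Q) ≤
      𝔼 w, (1 - ind n j (Q * ell n w * ell n w)) := by
  by_cases hZ : Z n (j + 2) Q
  · rw [ind_of hZ, sub_self, mul_zero]
    exact Finset.expect_nonneg fun w _ => by linarith [ind_le_one j (Q * ell n w * ell n w)]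
  · rw [ind_of_not hZ, sub_zero, mul_one]
    obtain ⟨B, hB, a, b, hab⟩ := detect hZ
    refine (sq_average_zero h2 _ a b hab).trans (Finset.expect_le_expect fun w _ => ?_)
    have h3 : ind n j (Q * ell n w * ell n w) ≤ ind n 0 (Q * B * ell n w * ell n w) := by
      by_cases h4 : Z n j (Q * ell n w * ell n w)
      · have h5 : Z n 0 (Q * B * ell n w * ell n w) := by
          have h6 := hB _ h4
          have h7 : Q * ell n w * ell n w * B = Q * B * ell n w * ell n w := by ring
          rw [h7] at h6
          exact h6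
        rw [ind_of h4, ind_of h5]
      · rw [ind_of_not h4]; exact ind_nonneg _ _
    linarith

/-! ### Extension by one variable -/

theorem Z_coeff_one {j : ℕ} {R : MvPolynomial (Fin (n + 1)) F} (h : Z (n + 1) j R) :
    Z n j ((finSuccEquiv F n R).coeff 1) := by
  induction j generalizing R with
  | zero =>
    have h1 : Lam (n + 1) R = 0 := h
    rw [Lam_succ] at h1
    exact h1
  | succ j ih =>
    intro b
    have h1 := ih (h (Fin.cons 0 b))
    rw [← hh_eq, map_mul, hh, fse_rename, Polynomial.coeff_mul_C] at h1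
    exact h1

theorem Z_coeff_zero {j : ℕ} {R : MvPolynomial (Fin (n + 1)) F} (h : Z (n + 1) (j + 1) R) :
    Z n j ((finSuccEquiv F n R).coeff 0) := by
  have h1 := Z_coeff_one (h (Fin.cons 1 0))
  rw [map_mul, fse_ell] at h1
  simpa using h1

theorem fse_two (c α : F) (w a : Fin n → F) (Q : MvPolynomial (Fin n) F) :
    (finSuccEquiv F n (ell (n + 1) (Fin.cons c w) * rename Fin.succ Q *
      ell (n + 1) (Fin.cons α a))).coeff 1 = Q * ell n (c • a + α • w) ∧
    (finSuccEquiv F n (ell (n + 1) (Fin.cons c w) * rename Fin.succ Q *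
      ell (n + 1) (Fin.cons α a))).coeff 0 = Q * ell n w * ell n a := by
  rw [map_mul, map_mul, fse_rename, fse_ell, fse_ell]
  have h : (Polynomial.C (C c) * Polynomial.X + Polynomial.C (ell n w)) * Polynomial.C Q *
        (Polynomial.C (C α) * Polynomial.X + Polynomial.C (ell n a)) =
      Polynomial.C (C c * C α * Q) * Polynomial.X ^ 2 +
      Polynomial.C (Q * (C c * ell n a + C α * ell n w)) * Polynomial.X ^ 1 +
      Polynomial.C (Q * ell n w * ell n a) * Polynomial.X ^ 0 := by
    simp only [Polynomial.C_mul, Polynomial.C_add]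
    ring
  rw [h]
  constructor
  · simp only [Polynomial.coeff_add, Polynomial.coeff_C_mul_X_pow]
    norm_num
    left
    rw [smul_eq_C_mul, smul_eq_C_mul]
  · simp only [Polynomial.coeff_add, Polynomial.coeff_C_mul_X_pow]
    norm_num

/-- Bound for one more column in the extended space. -/
theorem ext_one (j : ℕ) (c : F) (hc : c ≠ 0) (w : Fin n → F) (Q : MvPolynomial (Fin n) F) :
    op (ell (n + 1)) (ind (n + 1) (j + 1)) (ell (n + 1) (Fin.cons c w) * rename Fin.succ Q) ≤
      op (ell n) (ind n (j + 1)) Q *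
        (1 - (1 - 1 / Fintype.card F) * (1 - ind n j (Q * ell n w * ell n w))) := by
  classical
  have hq := q_pos (F := F)
  set s : ℝ := 1 - ind n j (Q * ell n w * ell n w) with hs
  have hs1 : s ≤ 1 := by linarith [ind_nonneg j (Q * ell n w * ell n w)]
  unfold op
  rw [expect_cons]
  have h1 : ∀ (α : F) (a : Fin n → F),
      ind (n + 1) (j + 1) (ell (n + 1) (Fin.cons c w) * rename Fin.succ Q *
        ell (n + 1) (Fin.cons α a)) ≤
      (if α = 0 then 1 else 1 - s) * ind n (j + 1) (Q * ell n (c • a + α • w)) := by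
    intro α a
    by_cases hZ : Z (n + 1) (j + 1) (ell (n + 1) (Fin.cons c w) * rename Fin.succ Q *
        ell (n + 1) (Fin.cons α a))
    · have h3 : Z n (j + 1) (Q * ell n (c • a + α • w)) := by
        have := Z_coeff_one hZ
        rwa [(fse_two c α w a Q).1] at this
      have h4 : Z n j (Q * ell n w * ell n a) := by
        have := Z_coeff_zero hZ
        rwa [(fse_two c α w a Q).2] at this
      have h5 : Z n j (α • (Q * ell n w * ell n w)) := by
        have h6 := Z_add (h3 w) (Z_smul (-c) h4)
        have h7 : Q * ell n (c • a + α • w) * ell n w + (-c) • (Q * ell n w * ell n a) =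
            α • (Q * ell n w * ell n w) := by
          rw [map_add, map_smul, map_smul]
          simp only [Algebra.smul_def, map_neg]; ring
        rwa [h7] at h6
      rw [ind_of hZ, ind_of h3, mul_one]
      split_ifs with hα
      · exact le_rfl
      · have h11 : Z n j (Q * ell n w * ell n w) := by
          have := Z_smul α⁻¹ h5
          rwa [smul_smul, inv_mul_cancel₀ hα, one_smul] at this
        rw [hs, ind_of h11]; norm_num
    · rw [ind_of_not hZ]
      refine mul_nonneg ?_ (ind_nonneg _ _)
      split_ifs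
      · norm_num
      · linarith
  have h12 : ∀ α : F, 𝔼 a : Fin n → F, ind (n + 1) (j + 1) (ell (n + 1) (Fin.cons c w) *
        rename Fin.succ Q * ell (n + 1) (Fin.cons α a)) ≤
      (if α = 0 then 1 else 1 - s) * 𝔼 a : Fin n → F, ind n (j + 1) (Q * ell n a) := by
    intro α
    refine (Finset.expect_le_expect fun a _ => h1 α a).trans (le_of_eq ?_)
    rw [← Finset.mul_expect]
    congr 1
    refine Fintype.expect_equiv
      ((LinearEquiv.smulOfNeZero F (Fin n → F) c hc).toEquiv.trans (Equiv.addRight (α • w)))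
      _ _ fun a => ?_
    rfl
  refine (Finset.expect_le_expect fun α _ => h12 α).trans (le_of_eq ?_)
  rw [← Finset.expect_mul, mul_comm]
  congr 1
  rw [Fintype.expect_eq_sum_div_card]
  have h13 : ∀ α : F, (if α = 0 then (1 : ℝ) else 1 - s) =
      (1 - s) + s * (if α = 0 then 1 else 0) := by
    intro α; split_ifs <;> ring
  simp only [h13]
  rw [Finset.sum_add_distrib, ← Finset.mul_sum, Finset.sum_ite_eq']
  simp only [Finset.sum_const, Finset.card_univ, Finset.mem_univ, if_true, nsmul_eq_mul, mul_one]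
  field_simp
  ring

theorem one_sub_nonneg : 0 ≤ 1 - 1 / (Fintype.card F : ℝ) := by
  have hq := q_pos (F := F)
  rw [sub_nonneg, div_le_one hq]
  linarith [card_two_le (F := F)]

/-- The same, averaged over `w`. -/
theorem ext_two (h2 : (2 : F) ≠ 0) (j : ℕ) (c : F) (hc : c ≠ 0) (Q : MvPolynomial (Fin n) F) :
    𝔼 w : Fin n → F, op (ell (n + 1)) (ind (n + 1) (j + 1))
        (ell (n + 1) (Fin.cons c w) * rename Fin.succ Q) ≤
      op (ell n) (ind n (j + 1)) Q -
        (1 - 1 / Fintype.card F) * (1 - 2 / Fintype.card F) * K n (j + 1) Q := by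
  have hqq := one_sub_nonneg (F := F)
  set κ : ℝ := op (ell n) (ind n (j + 1)) Q with hκ
  have hκ0 : 0 ≤ κ := op_ind_nonneg _ _
  have h1 : ∀ w : Fin n → F, op (ell (n + 1)) (ind (n + 1) (j + 1))
        (ell (n + 1) (Fin.cons c w) * rename Fin.succ Q) ≤
      κ - ((1 - 1 / Fintype.card F) * κ) * (1 - ind n j (Q * ell n w * ell n w)) := by
    intro w
    have := ext_one j c hc w Q
    rw [← hκ] at this
    linarith
  refine (Finset.expect_le_expect fun w _ => h1 w).trans ?_
  rw [Finset.expect_sub_distrib, Fintype.expect_const, ← Finset.mul_expect]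
  have h3 := sq_average h2 j Q
  have h4 : K n (j + 1) Q = (1 - ind n (j + 2) Q) * κ := rfl
  rw [h4]
  have h5 : 0 ≤ (1 - 1 / (Fintype.card F : ℝ)) * κ := by positivity
  have := mul_le_mul_of_nonneg_left h3 h5
  linarith

end Pool.Agent.H26perm
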