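import Pool.Agent.H26perm.Ext

set_option autoImplicit false
set_option linter.unusedSectionVars false

open Finset MvPolynomial
open scoped BigOperators Topology
open Filter

namespace Pool.Agent.H26perm

variable {F : Type*} [Field F] [Fintype F] {n : ℕ}

/-- Restriction of one column to the old variables. -/
theorem opH_le (j : ℕ) (P : MvPolynomial (Fin (n + 1)) F) :
    op (ell (n + 1)) (ind (n + 1) j) P ≤ op (hh n) (ind (n + 1) j) P := by
  unfold op
  rw [expect_cons]
  refine Finset.expect_le Finset.univ_nonempty fun c _ => ?_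
  by_cases hex : ∃ w₀ : Fin n → F, Z (n + 1) j (P * ell (n + 1) (Fin.cons c w₀))
  · obtain ⟨w₀, hw₀⟩ := hex
    refine le_of_eq ?_
    refine Fintype.expect_equiv (Equiv.subRight w₀) _ _ fun w => ?_
    rw [hh_eq]
    have h1 : (Fin.cons (0 : F) (Equiv.subRight w₀ w) : Fin (n + 1) → F) =
        Fin.cons c w - Fin.cons c w₀ := by
      funext i
      refine Fin.cases ?_ (fun i => ?_) i
      · simp
      · simp
    rw [h1]
    by_cases h2 : Z (n + 1) j (P * ell (n + 1) (Fin.cons c w))
    · have h3 : Z (n + 1) j (P * ell (n + 1) (Fin.cons c w - Fin.cons c w₀)) :=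
        (kerZ j P).sub_mem h2 hw₀
      rw [ind_of h2, ind_of h3]
    · have h3 : ¬ Z (n + 1) j (P * ell (n + 1) (Fin.cons c w - Fin.cons c w₀)) := by
        intro h4
        apply h2
        have h5 := (kerZ j P).add_mem h4 hw₀
        rw [sub_add_cancel] at h5
        exact h5
      rw [ind_of_not h2, ind_of_not h3]
  · push Not at hex
    have h1 : ∀ w : Fin n → F, ind (n + 1) j (P * ell (n + 1) (Fin.cons c w)) = 0 :=
      fun w => ind_of_not (hex w)
    simp only [h1]
    rw [Finset.expect_const_zero]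
    exact Finset.expect_nonneg fun _ _ => ind_nonneg _ _

theorem iter_restrict (j k m : ℕ) (P : MvPolynomial (Fin (n + 1)) F) :
    (op (ell (n + 1)))^[k + m] (ind (n + 1) j) P ≤
      (op (hh n))^[k] ((op (ell (n + 1)))^[m] (ind (n + 1) j)) P := by
  induction k generalizing P with
  | zero => rw [Nat.zero_add]; exact le_rfl
  | succ k ih =>
    have h1 : ∀ P : MvPolynomial (Fin (n + 1)) F,
        (op (ell (n + 1)))^[k + m + 1] (ind (n + 1) j) P ≤
        op (hh n) ((op (ell (n + 1)))^[k + m] (ind (n + 1) j)) P := by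
      intro P
      rw [Function.iterate_succ_apply, ← iter_comm]
      exact iter_mono (opH_le j) _ _
    rw [Nat.add_right_comm, Function.iterate_succ_apply' (op (hh n))]
    exact (h1 P).trans (op_mono ih P)

theorem hh_transfer (c : F) (w : Fin n → F) (Ψ : MvPolynomial (Fin (n + 1)) F → ℝ) (k : ℕ)
    (Q : MvPolynomial (Fin n) F) :
    (op (hh n))^[k] Ψ (ell (n + 1) (Fin.cons c w) * rename Fin.succ Q) =
      (op (ell n))^[k] (fun Q => Ψ (ell (n + 1) (Fin.cons c w) * rename Fin.succ Q)) Q := by
  induction k generalizing Q with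
  | zero => rfl
  | succ k ih =>
    rw [Function.iterate_succ_apply', Function.iterate_succ_apply']
    unfold op
    refine Finset.expect_congr rfl fun a _ => ?_
    have := ih (Q * ell n a)
    unfold op at this
    rw [← this, map_mul, mul_assoc]
    rfl

/-- The form of a new column `(c, w)` with `c ≠ 0` and `m + 1` random columns. -/
theorem col_bound (j m : ℕ) (c : F) (w : Fin n → F) :
    (op (ell (n + 1)))^[m + 1] (ind (n + 1) j) (ell (n + 1) (Fin.cons c w)) ≤
      (op (ell n))^[m] (fun Q => op (ell (n + 1)) (ind (n + 1) j)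
        (ell (n + 1) (Fin.cons c w) * rename Fin.succ Q)) 1 := by
  have h4 := iter_restrict (F := F) j m 1 (ell (n + 1) (Fin.cons c w))
  refine h4.trans (le_of_eq ?_)
  have h5 := hh_transfer c w ((op (ell (n + 1)))^[1] (ind (n + 1) j)) m 1
  rw [map_one, mul_one] at h5
  rw [h5]
  rfl

theorem col_ne (j m : ℕ) (c : F) (hc : c ≠ 0) (w : Fin n → F) :
    (op (ell (n + 1)))^[m + 1] (ind (n + 1) (j + 1)) (ell (n + 1) (Fin.cons c w)) ≤
      (op (ell n))^[m + 1] (ind n (j + 1)) (1 : MvPolynomial (Fin n) F) := by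
  refine (col_bound (j + 1) m c w).trans ?_
  rw [Function.iterate_succ_apply]
  refine iter_mono (fun Q => ?_) m 1
  refine (ext_one j c hc w Q).trans ?_
  have h1 : 0 ≤ (1 - 1 / (Fintype.card F : ℝ)) * (1 - ind n j (Q * ell n w * ell n w)) :=
    mul_nonneg one_sub_nonneg (by linarith [ind_le_one j (Q * ell n w * ell n w)])
  have h2 := op_ind_nonneg (j + 1) Q
  nlinarith

theorem Z_rename (σ : Equiv.Perm (Fin n)) (j : ℕ) (P : MvPolynomial (Fin n) F) :
    Z n j (rename σ P) ↔ Z n j P := by
  induction j generalizing P with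
  | zero =>
    change Lam n _ = 0 ↔ Lam n P = 0
    rw [Lam_rename]
  | succ j ih =>
    constructor
    · intro h u
      rw [← ih, map_mul, rename_ell]
      exact h _
    · intro h u
      have h1 : rename σ P * ell n u = rename σ (P * ell n (u ∘ σ)) := by
        rw [map_mul, rename_ell]
        congr 2
        funext i
        simp
      rw [h1, ih]
      exact h _

theorem iter_perm (σ : Equiv.Perm (Fin n)) (j k : ℕ) (P : MvPolynomial (Fin n) F) :
    (op (ell n))^[k] (ind n j) (rename σ P) = (op (ell n))^[k] (ind n j) P := by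
  induction k generalizing P with
  | zero =>
    change ind n j _ = ind n j _
    by_cases h3 : Z n j P
    · rw [ind_of h3, ind_of ((Z_rename σ j P).2 h3)]
    · rw [ind_of_not h3, ind_of_not fun h => h3 ((Z_rename σ j P).1 h)]
  | succ k ih =>
    rw [Function.iterate_succ_apply']
    unfold op at ih ⊢
    refine Fintype.expect_equiv (Equiv.arrowCongr σ.symm (Equiv.refl F)) _ _ fun u => ?_
    have h1 : rename σ P * ell n u = rename σ (P * ell n (u ∘ σ)) := by
      rw [map_mul, rename_ell]
      congr 2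
      funext i
      simp
    rw [h1]
    exact ih _

theorem col_any (j m : ℕ) (u : Fin (n + 1) → F) (hu : u ≠ 0) :
    (op (ell (n + 1)))^[m + 1] (ind (n + 1) (j + 1)) (ell (n + 1) u) ≤
      (op (ell n))^[m + 1] (ind n (j + 1)) (1 : MvPolynomial (Fin n) F) := by
  obtain ⟨k, hk⟩ : ∃ k, u k ≠ 0 := by
    by_contra hc
    push Not at hc
    exact hu (funext hc)
  rw [← iter_perm (Equiv.swap 0 k), rename_ell]
  have h1 : u ∘ (Equiv.swap 0 k).symm = Fin.cons (u k) (Fin.tail (u ∘ (Equiv.swap 0 k).symm)) := by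
    conv_lhs => rw [← Fin.cons_self_tail (u ∘ (Equiv.swap 0 k).symm)]
    simp
  rw [h1]
  exact col_ne _ _ _ hk _

theorem iter_ind_le_one (k j : ℕ) (P : MvPolynomial (Fin n) F) :
    (op (ell n))^[k] (ind n j) P ≤ 1 := by
  have := iter_mono (s := ell n) (Φ := ind n j) (Ψ := fun _ : MvPolynomial (Fin n) F => (1 : ℝ))
    (ind_le_one j) k P
  rwa [iter_const] at this

theorem iter_ind_nonneg (k : ℕ) (j : ℕ) (P : MvPolynomial (Fin n) F) :
    0 ≤ (op (ell n))^[k] (ind n j) P := by
  have := iter_mono (s := ell n) (Φ := fun _ : MvPolynomial (Fin n) F => (0 : ℝ)) (Ψ := ind n j)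
    (ind_nonneg j) k P
  rwa [iter_const] at this

/-- The recursion. -/
theorem recursion (h2 : (2 : F) ≠ 0) (n j m : ℕ) :
    (op (ell (n + 1)))^[m + 2] (ind (n + 1) (j + 1)) (1 : MvPolynomial (Fin (n + 1)) F) ≤
      (op (ell n))^[m + 1] (ind n (j + 1)) (1 : MvPolynomial (Fin n) F) +
        (1 / (Fintype.card F : ℝ)) ^ (n + 1) -
      (1 - 1 / Fintype.card F) ^ 2 * (1 - 2 / Fintype.card F) *
        (op (ell n))^[m] (K n (j + 1)) (1 : MvPolynomial (Fin n) F) := by
  classical
  have hq := q_pos (F := F)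
  set δ := (op (ell n))^[m] (K n (j + 1)) (1 : MvPolynomial (Fin n) F) with hδ
  set ζ := (op (ell n))^[m + 1] (ind n (j + 1)) (1 : MvPolynomial (Fin n) F) with hζ
  have h0 : (op (ell (n + 1)))^[m + 2] (ind (n + 1) (j + 1))
      (1 : MvPolynomial (Fin (n + 1)) F) = 𝔼 c : F, 𝔼 w : Fin n → F,
      (op (ell (n + 1)))^[m + 1] (ind (n + 1) (j + 1)) (ell (n + 1) (Fin.cons c w)) := by
    rw [Function.iterate_succ_apply']
    unfold op
    simp only [one_mul]
    rw [expect_cons]
  have h1 : ∀ c : F, 𝔼 w : Fin n → F,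
      (op (ell (n + 1)))^[m + 1] (ind (n + 1) (j + 1)) (ell (n + 1) (Fin.cons c w)) ≤
      ζ + (if c = 0 then (1 / (Fintype.card F : ℝ)) ^ n +
        (1 - 1 / Fintype.card F) * (1 - 2 / Fintype.card F) * δ else 0) -
        (1 - 1 / Fintype.card F) * (1 - 2 / Fintype.card F) * δ := by
    intro c
    by_cases hc : c = 0
    · rw [if_pos hc]
      subst hc
      have h3 : ∀ w : Fin n → F, (op (ell (n + 1)))^[m + 1] (ind (n + 1) (j + 1))
          (ell (n + 1) (Fin.cons (0 : F) w)) ≤ ζ + (if w = 0 then 1 else 0) := by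
        intro w
        by_cases hw : w = 0
        · rw [if_pos hw]
          have := iter_ind_le_one (F := F) (m + 1) (j + 1) (ell (n + 1) (Fin.cons (0 : F) w))
          have h4 : 0 ≤ ζ := iter_ind_nonneg _ _ _
          linarith
        · rw [if_neg hw, add_zero]
          apply col_any
          intro h
          apply hw
          funext i
          have := congrFun h i.succ
          simpa using this
      refine (Finset.expect_le_expect fun w _ => h3 w).trans ?_
      rw [Finset.expect_add_distrib, Fintype.expect_const]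
      have h5 : 𝔼 w : Fin n → F, (if w = 0 then (1 : ℝ) else 0) =
          (1 / (Fintype.card F : ℝ)) ^ n := by
        rw [Fintype.expect_eq_sum_div_card, Finset.sum_ite_eq', if_pos (Finset.mem_univ _),
          Fintype.card_fun, Fintype.card_fin]
        push_cast
        rw [one_div_pow]
      rw [h5]
      linarith
    · rw [if_neg hc, add_zero]
      refine (Finset.expect_le_expect fun w _ => col_bound (j + 1) m c w).trans ?_
      rw [← iter_expect (s := ell n) (Φ := fun (w : Fin n → F) Q =>
            (op (ell (n + 1)) (ind (n + 1) (j + 1)))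
              (ell (n + 1) (Fin.cons c w) * rename Fin.succ Q))]
      refine (iter_mono (fun Q => ext_two h2 j c hc Q) m 1).trans (le_of_eq ?_)
      rw [iter_sub, iter_mul_left, ← Function.iterate_succ_apply]
  rw [h0]
  refine (Finset.expect_le_expect fun c _ => h1 c).trans (le_of_eq ?_)
  rw [Finset.expect_sub_distrib, Finset.expect_add_distrib, Fintype.expect_const,
    Fintype.expect_const, Fintype.expect_eq_sum_div_card, Finset.sum_ite_eq',
    if_pos (Finset.mem_univ _)]
  simp only [div_eq_mul_inv, one_mul]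
  ring

/-- The probability that the `j`-linear form of `n - j` random columns vanishes. -/
noncomputable def zz (F : Type*) [Field F] [Fintype F] (n j : ℕ) : ℝ :=
  (op (ell n))^[n - j] (ind n j) (1 : MvPolynomial (Fin n) F)

/-- The difference of two consecutive `zz`. -/
noncomputable def DD (F : Type*) [Field F] [Fintype F] (n j : ℕ) : ℝ :=
  (op (ell n))^[n - j - 1] (K n j) (1 : MvPolynomial (Fin n) F)

theorem zz_diff {n j : ℕ} (h : j + 1 ≤ n) : zz F n j = zz F n (j + 1) + DD F n j := by
  have h1 : n - j = (n - j - 1) + 1 := by omega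
  have h2 : n - (j + 1) = n - j - 1 := by omega
  have h3 : op (ell n) (ind n j) = fun P : MvPolynomial (Fin n) F =>
    ind n (j + 1) P + K n j P := funext (op_ind_eq j)
  unfold zz DD
  rw [h1, h2, Function.iterate_succ_apply, h3, iter_add]
  rfl

theorem zz_nonneg (n j : ℕ) : 0 ≤ zz F n j := iter_ind_nonneg _ _ _

theorem DD_nonneg (n j : ℕ) : 0 ≤ DD F n j := by
  have := iter_mono (s := ell n) (Φ := fun _ : MvPolynomial (Fin n) F => (0 : ℝ)) (Ψ := K n j)
    (K_nonneg j) (n - j - 1) 1
  rwa [iter_const] at this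

theorem DD_tail (n j : ℕ) : DD F n j ≤ (1 / (Fintype.card F : ℝ)) ^ (j + 1) := by
  have := iter_mono (s := ell n) (Φ := K n j)
    (Ψ := fun _ : MvPolynomial (Fin n) F => (1 / (Fintype.card F : ℝ)) ^ (j + 1))
    (K_tail j) (n - j - 1) 1
  rwa [iter_const] at this

theorem zz_self (n : ℕ) : zz F n n = 0 := by
  unfold zz
  rw [Nat.sub_self]
  change ind n n (1 : MvPolynomial (Fin n) F) = 0
  apply ind_of_not
  intro h
  have h1 := Z_prod h Finset.univ (by simp)
  rw [one_mul] at h1
  have h2 := Lam_prod_X (F := F) (id : Fin n → Fin n)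
  rw [if_pos Function.bijective_id] at h2
  simp only [id] at h2
  rw [h1] at h2
  exact zero_ne_one h2

theorem zz_rec (h2 : (2 : F) ≠ 0) {n j : ℕ} (hj : 1 ≤ j) (hn : j + 1 ≤ n) :
    zz F (n + 1) j ≤ zz F n j + (1 / (Fintype.card F : ℝ)) ^ (n + 1) -
      (1 - 1 / Fintype.card F) ^ 2 * (1 - 2 / Fintype.card F) * DD F n j := by
  obtain ⟨i, rfl⟩ : ∃ i, j = i + 1 := ⟨j - 1, by omega⟩
  have h := recursion h2 n i (n - (i + 1) - 1)
  have e1 : n - (i + 1) - 1 + 2 = n + 1 - (i + 1) := by omega
  have e2 : n - (i + 1) - 1 + 1 = n - (i + 1) := by omega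
  rw [e1, e2] at h
  exact h

/-- The exponential bound. -/
theorem zz_bound (h2 : (2 : F) ≠ 0) (h3 : (3 : ℝ) ≤ Fintype.card F) (n : ℕ) :
    ∀ j, 1 ≤ j → j ≤ n → zz F n j ≤ 9 * (26 / 27) ^ n * (1 / 2) ^ j := by
  have hq := q_pos (F := F)
  have hr : 1 / (Fintype.card F : ℝ) ≤ 1 / 3 := one_div_le_one_div_of_le (by norm_num) h3
  have hr0 : 0 ≤ 1 / (Fintype.card F : ℝ) := by positivity
  induction n with
  | zero => intro j h1 h4; omega
  | succ n ih =>
    intro j hj hjn
    have hpow : (1 / (Fintype.card F : ℝ)) ^ (n + 1) ≤ (1 / 3) ^ (n + 1) :=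
      pow_le_pow_left₀ hr0 hr _
    rcases Nat.lt_or_ge j (n + 1) with h4 | h4
    · have hpow2 : (1 / 3 : ℝ) ^ (n + 1) ≤ (1 / 3) * ((26 / 27) ^ n * (1 / 2) ^ j) := by
        rw [pow_succ, mul_comm]
        refine mul_le_mul_of_nonneg_left ?_ (by norm_num)
        calc (1 / 3 : ℝ) ^ n ≤ (26 / 27 * (1 / 2)) ^ n :=
              pow_le_pow_left₀ (by norm_num) (by norm_num) _
          _ = (26 / 27) ^ n * (1 / 2) ^ n := mul_pow _ _ _
          _ ≤ (26 / 27) ^ n * (1 / 2) ^ j :=
              mul_le_mul_of_nonneg_left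
                (pow_le_pow_of_le_one (by norm_num) (by norm_num) (by omega)) (by positivity)
      have hX : 0 ≤ (26 / 27 : ℝ) ^ n * (1 / 2) ^ j := by positivity
      rcases Nat.lt_or_ge j n with h5 | h5
      · have h6 := zz_rec h2 hj (show j + 1 ≤ n by omega)
        have h7 := zz_diff (F := F) (show j + 1 ≤ n by omega)
        have h8 := ih j hj (by omega)
        have h9 := ih (j + 1) (by omega) (by omega)
        have h10 := DD_nonneg (F := F) n j
        have h11 : (4 / 27 : ℝ) ≤ (1 - 1 / Fintype.card F) ^ 2 * (1 - 2 / Fintype.card F) := by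
          have e1 : (2 / 3 : ℝ) ≤ 1 - 1 / Fintype.card F := by linarith
          have e2 : (1 / 3 : ℝ) ≤ 1 - 2 / Fintype.card F := by
            have : (2 : ℝ) / Fintype.card F = 2 * (1 / Fintype.card F) := by ring
            rw [this]; linarith
          have e3 : (2 / 3 : ℝ) ^ 2 ≤ (1 - 1 / Fintype.card F) ^ 2 :=
            pow_le_pow_left₀ (by norm_num) e1 2
          calc (4 / 27 : ℝ) = (2 / 3) ^ 2 * (1 / 3) := by norm_num
            _ ≤ _ := mul_le_mul e3 e2 (by norm_num) (by positivity)
        have h12 := mul_le_mul_of_nonneg_right h11 h10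
        rw [pow_succ (1 / 2 : ℝ) j] at h9
        rw [pow_succ (26 / 27 : ℝ) n]
        nlinarith
      · have h6 : j = n := by omega
        subst h6
        have h7 := zz_diff (F := F) (n := j + 1) (j := j) le_rfl
        rw [zz_self, zero_add] at h7
        have h8 := DD_tail (F := F) (j + 1) j
        rw [h7, pow_succ (26 / 27 : ℝ) j]
        nlinarith
    · have h5 : j = n + 1 := by omega
      subst h5
      rw [zz_self]
      positivity

/-- The probability that the permanent of a random `n × n` matrix vanishes. -/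
noncomputable def pp (F : Type*) [Field F] [Fintype F] (n : ℕ) : ℝ :=
  (op (ell n))^[n] (ind n 0) (1 : MvPolynomial (Fin n) F)

theorem pp_eq (n : ℕ) (hn : 1 ≤ n) :
    pp F n = 1 / Fintype.card F + (1 - 1 / Fintype.card F) * zz F n 1 := by
  obtain ⟨m, rfl⟩ := Nat.exists_eq_add_of_le hn
  unfold pp zz
  have h1 : 1 + m - 1 = m := by omega
  rw [h1]
  have h3 : op (ell (1 + m)) (ind (1 + m) 0) = fun P : MvPolynomial (Fin (1 + m)) F =>
    1 / (Fintype.card F : ℝ) + (1 - 1 / Fintype.card F) * ind (1 + m) 1 P := funext op_ind_zero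
  have h4 : (op (ell (1 + m)))^[1 + m] (ind (1 + m) 0) =
      (op (ell (F := F) (1 + m)))^[m] (op (ell (1 + m)) (ind (1 + m) 0)) := by
    rw [Nat.add_comm, Function.iterate_succ_apply]
  rw [h4, h3, iter_add, iter_mul_left, iter_const]

theorem pp_bounds (h2 : (2 : F) ≠ 0) (h3 : (3 : ℝ) ≤ Fintype.card F) (n : ℕ) (hn : 1 ≤ n) :
    1 / (Fintype.card F : ℝ) ≤ pp F n ∧
      pp F n ≤ 1 / Fintype.card F + 9 / 2 * (26 / 27) ^ n := by
  have h4 := zz_bound h2 h3 n 1 le_rfl hn
  have h5 := zz_nonneg (F := F) n 1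
  have hq := q_pos (F := F)
  have h6 := one_sub_nonneg (F := F)
  have h7 : 1 - 1 / (Fintype.card F : ℝ) ≤ 1 := by
    have : 0 ≤ 1 / (Fintype.card F : ℝ) := by positivity
    linarith
  rw [pp_eq n hn]
  constructor
  · have := mul_nonneg h6 h5
    linarith
  · have := mul_le_mul h7 h4 h5 zero_le_one
    linarith

/-- `pp` is the proportion of the matrices with vanishing permanent. -/
theorem pp_eq_card (n : ℕ) : pp F n =
    (Nat.card {A : Matrix (Fin n) (Fin n) F // A.permanent = 0} : ℝ) /
      (Nat.card (Matrix (Fin n) (Fin n) F) : ℝ) := by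
  classical
  unfold pp
  rw [iter_eq]
  have h1 : ∀ x : Fin n → Fin n → F, ind n 0 (1 * ∏ i, ell n (x i)) =
      if (Matrix.of fun i j => x j i).permanent = 0 then 1 else 0 := by
    intro x
    rw [one_mul]
    have h2 := Lam_prod_ell (Matrix.of fun i j => x j i)
    have h3 : (∏ j, ell n (fun i => (Matrix.of fun i j => x j i) i j)) = ∏ i, ell n (x i) := rfl
    rw [h3] at h2
    rw [← h2]
    by_cases h4 : Lam n (∏ i, ell n (x i)) = 0
    · rw [if_pos h4]; exact ind_of h4
    · rw [if_neg h4]; exact ind_of_not h4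
  simp only [h1]
  have h5 : 𝔼 x : Fin n → Fin n → F,
      (if (Matrix.of fun i j => x j i).permanent = 0 then (1 : ℝ) else 0) =
      𝔼 A : Matrix (Fin n) (Fin n) F, (if A.permanent = 0 then (1 : ℝ) else 0) := by
    refine Fintype.expect_equiv ((Equiv.piComm _).trans Matrix.of) _ _ fun x => ?_
    rfl
  rw [h5, Fintype.expect_eq_sum_div_card, Finset.sum_boole, Nat.card_eq_fintype_card,
    Nat.card_eq_fintype_card, Fintype.card_subtype]

end Pool.Agent.H26perm
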