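import Pool.Agent.H26perm.Basic

set_option autoImplicit false

open Finset MvPolynomial
open scoped BigOperators

namespace Pool.Agent.H26perm

variable {F : Type*} [Field F] {n : ℕ}

/-- The exponent vector `(1, …, 1)`. -/
noncomputable def ones (n : ℕ) : Fin n →₀ ℕ := Finsupp.equivFunOnFinite.symm fun _ => 1

@[simp] theorem ones_apply (i : Fin n) : ones n i = 1 := rfl

theorem cons_ones : (ones n).cons 1 = ones (n + 1) := by
  ext i
  refine Fin.cases ?_ (fun j => ?_) i
  · simp
  · simp

/-- The linear form with coefficients `u`. -/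
noncomputable def ell (n : ℕ) : (Fin n → F) →ₗ[F] MvPolynomial (Fin n) F :=
  Fintype.linearCombination F (fun i => X i)

theorem ell_apply (u : Fin n → F) : ell n u = ∑ i, u i • (X i : MvPolynomial (Fin n) F) := by
  simp [ell, Fintype.linearCombination_apply]

/-- The coefficient of `X_1 ⋯ X_n`. -/
noncomputable def Lam (n : ℕ) : MvPolynomial (Fin n) F →ₗ[F] F := lcoeff F (ones n)

theorem Lam_apply (P : MvPolynomial (Fin n) F) : Lam n P = coeff (ones n) P := rfl

theorem Lam_sq (P : MvPolynomial (Fin n) F) (i : Fin n) : Lam n (P * X i * X i) = 0 := by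
  rw [Lam_apply, coeff_mul_X', coeff_mul_X']
  have h : i ∉ (ones n - Finsupp.single i 1).support := by
    simp
  rw [if_neg h]
  simp

theorem Lam_succ (P : MvPolynomial (Fin (n + 1)) F) :
    Lam (n + 1) P = Lam n ((finSuccEquiv F n P).coeff 1) := by
  rw [Lam_apply, Lam_apply, finSuccEquiv_coeff_coeff, cons_ones]

theorem fse_rename (Q : MvPolynomial (Fin n) F) :
    finSuccEquiv F n (rename Fin.succ Q) = Polynomial.C Q := by
  induction Q using MvPolynomial.induction_on with
  | C a => simp [finSuccEquiv_apply]
  | add p q hp hq => rw [map_add, map_add, hp, hq, map_add]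
  | mul_X p i hp =>
    rw [map_mul, map_mul, hp, rename_X, finSuccEquiv_X_succ, ← Polynomial.C_mul]

theorem fse_ell (c : F) (w : Fin n → F) :
    finSuccEquiv F n (ell (n + 1) (Fin.cons c w)) =
      Polynomial.C (C c) * Polynomial.X + Polynomial.C (ell n w) := by
  rw [ell_apply, Fin.sum_univ_succ, map_add, map_sum, ell_apply, map_sum]
  simp only [Fin.cons_zero, Fin.cons_succ, map_smul, finSuccEquiv_X_zero, finSuccEquiv_X_succ]
  congr 1
  · rw [Algebra.smul_def]
    rfl
  · refine Finset.sum_congr rfl fun i _ => ?_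
    rw [← Polynomial.smul_C]

/-- The lifts of the linear forms in the old variables. -/
noncomputable def hh (n : ℕ) (a : Fin n → F) : MvPolynomial (Fin (n + 1)) F :=
  rename Fin.succ (ell n a)

theorem hh_eq (a : Fin n → F) : hh n a = ell (n + 1) (Fin.cons 0 a) := by
  apply (finSuccEquiv F n).injective
  rw [fse_ell, hh, fse_rename]
  simp

theorem Lam_one (c : F) (w : Fin n → F) (Q : MvPolynomial (Fin n) F) :
    Lam (n + 1) (ell (n + 1) (Fin.cons c w) * rename Fin.succ Q) = c * Lam n Q := by
  rw [Lam_succ, map_mul, fse_rename, fse_ell, Polynomial.coeff_mul_C, Polynomial.coeff_add,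
    Polynomial.coeff_C_mul, Polynomial.coeff_X_one, Polynomial.coeff_C_of_ne_zero one_ne_zero,
    mul_one, add_zero, ← smul_eq_C_mul, map_smul, smul_eq_mul]

theorem Lam_three (c α β : F) (w a b : Fin n → F) (Q : MvPolynomial (Fin n) F) :
    Lam (n + 1) (ell (n + 1) (Fin.cons c w) * rename Fin.succ Q *
      ell (n + 1) (Fin.cons α a) * ell (n + 1) (Fin.cons β b)) =
      c * Lam n (Q * ell n a * ell n b) + α * Lam n (Q * ell n w * ell n b) +
        β * Lam n (Q * ell n w * ell n a) := by
  rw [Lam_succ, map_mul, map_mul, map_mul, fse_rename, fse_ell, fse_ell, fse_ell]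
  have h : (Polynomial.C (C c) * Polynomial.X + Polynomial.C (ell n w)) * Polynomial.C Q *
        (Polynomial.C (C α) * Polynomial.X + Polynomial.C (ell n a)) *
        (Polynomial.C (C β) * Polynomial.X + Polynomial.C (ell n b)) =
      Polynomial.C (C c * C α * C β * Q) * Polynomial.X ^ 3 +
      Polynomial.C (C c * C α * (Q * ell n b) + C c * C β * (Q * ell n a) +
        C α * C β * (Q * ell n w)) * Polynomial.X ^ 2 +
      Polynomial.C (C c * (Q * ell n a * ell n b) + C α * (Q * ell n w * ell n b) +
        C β * (Q * ell n w * ell n a)) * Polynomial.X ^ 1 +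
      Polynomial.C (Q * ell n w * ell n a * ell n b) * Polynomial.X ^ 0 := by
    simp only [Polynomial.C_mul, Polynomial.C_add]
    ring
  rw [h]
  simp only [Polynomial.coeff_add, Polynomial.coeff_C_mul_X_pow]
  norm_num
  simp only [← smul_eq_C_mul, map_smul, smul_eq_mul]

theorem mapDomain_ones (σ : Equiv.Perm (Fin n)) : (ones n).mapDomain σ = ones n := by
  ext i
  rw [← σ.apply_symm_apply i, Finsupp.mapDomain_apply σ.injective]
  simp

theorem Lam_rename (σ : Equiv.Perm (Fin n)) (P : MvPolynomial (Fin n) F) :
    Lam n (rename σ P) = Lam n P := by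
  rw [Lam_apply, Lam_apply, ← mapDomain_ones σ, coeff_rename_mapDomain _ σ.injective]
  rw [mapDomain_ones]

theorem rename_ell (σ : Equiv.Perm (Fin n)) (u : Fin n → F) :
    rename σ (ell n u) = ell n (u ∘ σ.symm) := by
  rw [ell_apply, ell_apply, map_sum]
  simp only [map_smul, rename_X]
  refine Fintype.sum_equiv σ _ _ fun i => ?_
  simp

theorem ell_single (i : Fin n) : ell n (Pi.single i (1 : F)) = X i := by
  rw [ell_apply, Finset.sum_eq_single i]
  · simp
  · intro j _ hj
    simp [Pi.single_eq_of_ne hj]
  · simp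

open Classical in
theorem Lam_prod_X (p : Fin n → Fin n) :
    Lam n (∏ j, (X (p j) : MvPolynomial (Fin n) F)) = if Function.Bijective p then 1 else 0 := by
  have h1 : (∏ j, (X (p j) : MvPolynomial (Fin n) F)) =
      monomial (∑ j, Finsupp.single (p j) 1) 1 := by
    rw [monomial_sum_one]
    rfl
  rw [h1, Lam_apply, coeff_monomial]
  have h2 : (∑ j, Finsupp.single (p j) 1 = ones n) ↔ Function.Bijective p := by
    have h3 : ∀ i, (∑ j, Finsupp.single (p j) 1 : Fin n →₀ ℕ) i = (univ.filter (p · = i)).card := by
      intro i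
      rw [Finsupp.finsetSum_apply, Finset.card_filter]
      refine Finset.sum_congr rfl fun j _ => ?_
      rw [Finsupp.single_apply]
    constructor
    · intro h
      have hs : Function.Surjective p := by
        intro i
        have h4 := h3 i
        rw [h, ones_apply] at h4
        have h5 : (univ.filter (p · = i)).Nonempty := by
          rw [← Finset.card_pos, ← h4]; norm_num
        obtain ⟨j, hj⟩ := h5
        exact ⟨j, (Finset.mem_filter.1 hj).2⟩
      exact Finite.surjective_iff_bijective.1 hs
    · intro h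
      ext i
      rw [h3, ones_apply, Finset.card_eq_one]
      obtain ⟨j, hj⟩ := h.2 i
      refine ⟨j, ?_⟩
      ext k
      simp only [Finset.mem_filter, Finset.mem_univ, true_and, Finset.mem_singleton]
      constructor
      · intro hk; exact h.1 (hk.trans hj.symm)
      · rintro rfl; exact hj
  simp only [h2]

/-- The coefficient of `X_1 ⋯ X_n` in the product of the linear forms given by the columns of `A`
is the permanent of `A`. -/
theorem Lam_prod_ell (A : Matrix (Fin n) (Fin n) F) :
    Lam n (∏ j, ell n (fun i => A i j)) = A.permanent := by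
  simp only [ell_apply]
  rw [Finset.prod_univ_sum, Fintype.piFinset_univ, map_sum, Matrix.permanent]
  symm
  refine Finset.sum_of_injOn (fun σ : Equiv.Perm (Fin n) => (σ : Fin n → Fin n)) ?_ ?_ ?_ ?_
  · intro σ _ τ _ h
    exact Equiv.coe_fn_injective h
  · intro σ _; simp
  · intro p _ hp
    have hb : ¬ Function.Bijective p := by
      intro hb
      exact hp ⟨Equiv.ofBijective p hb, by simp, rfl⟩
    have : (∏ j, A (p j) j • (X (p j) : MvPolynomial (Fin n) F)) =
        (∏ j, A (p j) j) • ∏ j, (X (p j) : MvPolynomial (Fin n) F) := by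
      rw [Finset.prod_smul]
    rw [this, map_smul, Lam_prod_X, if_neg hb, smul_zero]
  · intro σ _
    have : (∏ j, A (σ j) j • (X (σ j) : MvPolynomial (Fin n) F)) =
        (∏ j, A (σ j) j) • ∏ j, (X (σ j) : MvPolynomial (Fin n) F) := by
      rw [Finset.prod_smul]
    rw [this, map_smul, Lam_prod_X, if_pos σ.bijective]
    simp

end Pool.Agent.H26perm
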