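import Pool.Agent.H26perm.Poly

set_option autoImplicit false

open Finset MvPolynomial
open scoped BigOperators

namespace Pool.Agent.H26perm

section proper

variable {F W : Type*} [Field F] [Fintype F] [AddCommGroup W] [Module F W] [Fintype W]

open Classical in
theorem expect_proper (S : Submodule F W) (w₀ : W) (h : w₀ ∉ S) :
    𝔼 w, (if w ∈ S then (1 : ℝ) else 0) ≤ 1 / Fintype.card F := by
  rw [expect_shift (F := F) _ w₀]
  refine Finset.expect_le Finset.univ_nonempty fun w _ => ?_
  rw [Fintype.expect_eq_sum_div_card]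
  refine div_le_div_of_nonneg_right ?_ (by positivity)
  rw [Finset.sum_boole]
  norm_cast
  rw [Finset.card_le_one]
  intro s hs t ht
  simp only [Finset.mem_filter, Finset.mem_univ, true_and] at hs ht
  by_contra hst
  apply h
  have h1 := S.sub_mem hs ht
  have h2 : (w + s • w₀) - (w + t • w₀) = (s - t) • w₀ := by rw [sub_smul]; abel
  rw [h2] at h1
  exact (S.smul_mem_iff (sub_ne_zero.2 hst)).1 h1

end proper

variable {F : Type*} [Field F] {n : ℕ}

/-- `Z n j P`: the `j`-linear form `Λ(P ℓ(x_1) ⋯ ℓ(x_j))` vanishes. -/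
def Z (n : ℕ) : ℕ → MvPolynomial (Fin n) F → Prop
  | 0, P => Lam n P = 0
  | j + 1, P => ∀ u : Fin n → F, Z n j (P * ell n u)

theorem Z_zero (j : ℕ) : Z n j (0 : MvPolynomial (Fin n) F) := by
  induction j with
  | zero => exact map_zero _
  | succ j ih => intro u; rw [zero_mul]; exact ih

theorem Z_add {j : ℕ} {P Q : MvPolynomial (Fin n) F} (hP : Z n j P) (hQ : Z n j Q) :
    Z n j (P + Q) := by
  induction j generalizing P Q with
  | zero =>
    have h1 : Lam n P = 0 := hP
    have h2 : Lam n Q = 0 := hQ
    change Lam n (P + Q) = 0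
    rw [map_add, h1, h2, add_zero]
  | succ j ih => intro u; rw [add_mul]; exact ih (hP u) (hQ u)

theorem Z_smul {j : ℕ} {P : MvPolynomial (Fin n) F} (c : F) (hP : Z n j P) :
    Z n j (c • P) := by
  induction j generalizing P with
  | zero =>
    have h1 : Lam n P = 0 := hP
    change Lam n (c • P) = 0
    rw [map_smul, h1, smul_zero]
  | succ j ih => intro u; rw [smul_mul_assoc]; exact ih (hP u)

/-- The space of the `u` for which `P ℓ(u)` is in `Z j`. -/
def kerZ (j : ℕ) (P : MvPolynomial (Fin n) F) : Submodule F (Fin n → F) where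
  carrier := {u | Z n j (P * ell n u)}
  add_mem' := by
    intro a b ha hb
    simp only [Set.mem_ofPred_eq, map_add, mul_add] at *
    exact Z_add ha hb
  zero_mem' := by
    simp only [Set.mem_ofPred_eq, map_zero, mul_zero]
    exact Z_zero j
  smul_mem' := by
    intro c a ha
    simp only [Set.mem_ofPred_eq, map_smul, mul_smul_comm] at *
    exact Z_smul c ha

theorem mem_kerZ {j : ℕ} {P : MvPolynomial (Fin n) F} {u : Fin n → F} :
    u ∈ kerZ j P ↔ Z n j (P * ell n u) := Iff.rfl

/-- If `P` is not in `Z j` then some squarefree monomial of degree `j` detects it. -/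
theorem exists_monomial {j : ℕ} {P : MvPolynomial (Fin n) F} (h : ¬ Z n j P) :
    ∃ S : Finset (Fin n), S.card = j ∧ Lam n (P * ∏ i ∈ S, X i) ≠ 0 := by
  induction j generalizing P with
  | zero => exact ⟨∅, rfl, by rw [Finset.prod_empty, mul_one]; exact h⟩
  | succ j ih =>
    have h1 : ∃ i, ¬ Z n j (P * X i) := by
      by_contra hc
      push Not at hc
      apply h
      intro u
      rw [ell_apply, Finset.mul_sum]
      have h2 : ∀ s : Finset (Fin n), Z n j (∑ i ∈ s, P * u i • X i) := by
        intro s
        induction s using Finset.induction_on with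
        | empty => simpa using Z_zero j
        | insert a s ha ihs =>
          rw [Finset.sum_insert ha, mul_smul_comm]
          exact Z_add (Z_smul _ (hc a)) ihs
      exact h2 _
    obtain ⟨i, hi⟩ := h1
    obtain ⟨S, hS, hne⟩ := ih hi
    have hiS : i ∉ S := by
      intro hiS
      apply hne
      rw [← Finset.mul_prod_erase S _ hiS]
      have : P * X i * (X i * ∏ x ∈ S.erase i, X x) =
          P * (∏ x ∈ S.erase i, X x) * X i * X i := by ring
      rw [this, Lam_sq]
    refine ⟨insert i S, by rw [Finset.card_insert_of_notMem hiS, hS], ?_⟩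
    rw [Finset.prod_insert hiS, ← mul_assoc]
    exact hne

theorem Z_prod {j : ℕ} {P : MvPolynomial (Fin n) F} (h : Z n j P) (S : Finset (Fin n))
    (hS : S.card = j) : Lam n (P * ∏ i ∈ S, X i) = 0 := by
  induction j generalizing P S with
  | zero =>
    rw [Finset.card_eq_zero] at hS
    subst hS
    have h1 : Lam n P = 0 := h
    simpa using h1
  | succ j ih =>
    obtain ⟨i, hi⟩ : S.Nonempty := by rw [← Finset.card_pos]; omega
    rw [← Finset.mul_prod_erase S _ hi, ← mul_assoc]
    have h2 := h (Pi.single i 1)
    rw [ell_single] at h2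
    exact ih h2 _ (by rw [Finset.card_erase_of_mem hi]; omega)

/-- A vector of the kernel supported on a detecting set vanishes. -/
theorem ker_supp {j : ℕ} {P : MvPolynomial (Fin n) F} {S : Finset (Fin n)}
    (hS : S.card = j + 1) (hne : Lam n (P * ∏ i ∈ S, X i) ≠ 0) {u : Fin n → F}
    (hu : Z n j (P * ell n u)) (hsupp : ∀ i, i ∉ S → u i = 0) : u = 0 := by
  funext i
  by_cases hi : i ∈ S
  · have h1 := Z_prod hu (S.erase i) (by rw [Finset.card_erase_of_mem hi]; omega)
    rw [ell_apply, mul_assoc, Finset.sum_mul, Finset.mul_sum, map_sum,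
      Finset.sum_eq_single i] at h1
    · rw [smul_mul_assoc, mul_smul_comm, map_smul, Finset.mul_prod_erase S _ hi] at h1
      have h2 : u i * Lam n (P * ∏ i ∈ S, X i) = 0 := h1
      rcases mul_eq_zero.1 h2 with h3 | h3
      · exact h3
      · exact absurd h3 hne
    · intro k _ hk
      by_cases hkS : k ∈ S
      · have hk' : k ∈ S.erase i := Finset.mem_erase.2 ⟨hk, hkS⟩
        rw [← Finset.mul_prod_erase (S.erase i) _ hk']
        have : P * (u k • X k * (X k * ∏ x ∈ (S.erase i).erase k, X x)) =
            u k • (P * (∏ x ∈ (S.erase i).erase k, X x) * X k * X k) := by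
          rw [Algebra.smul_def, Algebra.smul_def]; ring
        rw [this, map_smul, Lam_sq, smul_zero]
      · rw [hsupp k hkS]; simp
    · intro h; exact absurd (Finset.mem_univ _) h
  · exact hsupp i hi

open Classical in
/-- The indicator of `Z j`. -/
noncomputable def ind (n j : ℕ) (P : MvPolynomial (Fin n) F) : ℝ := if Z n j P then 1 else 0

theorem ind_nonneg (j : ℕ) (P : MvPolynomial (Fin n) F) : 0 ≤ ind n j P := by
  unfold ind; split_ifs <;> norm_num

theorem ind_le_one (j : ℕ) (P : MvPolynomial (Fin n) F) : ind n j P ≤ 1 := by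
  unfold ind; split_ifs <;> norm_num

theorem ind_of {j : ℕ} {P : MvPolynomial (Fin n) F} (h : Z n j P) : ind n j P = 1 := if_pos h

theorem ind_of_not {j : ℕ} {P : MvPolynomial (Fin n) F} (h : ¬ Z n j P) : ind n j P = 0 :=
  if_neg h

variable [Fintype F]

/-- The probability that one more column leads from outside `Z (j+1)` into `Z j`. -/
noncomputable def K (n j : ℕ) (P : MvPolynomial (Fin n) F) : ℝ :=
  (1 - ind n (j + 1) P) * op (ell n) (ind n j) P

theorem op_ind_nonneg (j : ℕ) (P : MvPolynomial (Fin n) F) : 0 ≤ op (ell n) (ind n j) P :=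
  Finset.expect_nonneg fun _ _ => ind_nonneg _ _

theorem K_nonneg (j : ℕ) (P : MvPolynomial (Fin n) F) : 0 ≤ K n j P :=
  mul_nonneg (by linarith [ind_le_one (j + 1) P]) (op_ind_nonneg j P)

theorem op_ind_of {j : ℕ} {P : MvPolynomial (Fin n) F} (h : Z n (j + 1) P) :
    op (ell n) (ind n j) P = 1 := by
  unfold op
  have : ∀ u, ind n j (P * ell n u) = 1 := fun u => ind_of (h u)
  simp only [this]
  rw [Fintype.expect_const]

theorem op_ind_eq (j : ℕ) (P : MvPolynomial (Fin n) F) :
    op (ell n) (ind n j) P = ind n (j + 1) P + K n j P := by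
  by_cases h : Z n (j + 1) P
  · rw [op_ind_of h, K, ind_of h]; ring
  · rw [K, ind_of_not h]; ring

open Classical in
theorem op_ind_le {j : ℕ} {P : MvPolynomial (Fin n) F} (h : ¬ Z n (j + 1) P) :
    op (ell n) (ind n j) P ≤ 1 / Fintype.card F := by
  obtain ⟨w₀, hw₀⟩ : ∃ w₀, ¬ Z n j (P * ell n w₀) := by
    by_contra hc
    push Not at hc
    exact h hc
  exact expect_proper (kerZ j P) w₀ hw₀

open Classical in
/-- First step: one more column, for the scalar forms. -/
theorem op_ind_zero (P : MvPolynomial (Fin n) F) :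
    op (ell n) (ind n 0) P =
      1 / Fintype.card F + (1 - 1 / Fintype.card F) * ind n 1 P := by
  have h := expect_lin ((Lam n).comp ((LinearMap.mulLeft F P).comp (ell n)))
  have h2 : ((Lam n).comp ((LinearMap.mulLeft F P).comp (ell n)) = 0) ↔ Z n 1 P := by
    constructor
    · intro h0 u
      exact LinearMap.congr_fun h0 u
    · intro h0
      exact LinearMap.ext fun u => h0 u
  simp only [h2] at h
  exact h

/-- The chain inequality. -/
theorem K_chain (j : ℕ) (P : MvPolynomial (Fin n) F) :
    (1 - 1 / Fintype.card F) * K n (j + 1) P ≤ op (ell n) (K n j) P := by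
  by_cases h : Z n (j + 2) P
  · have h0 : K n (j + 1) P = 0 := by
      unfold K; rw [ind_of h]; ring
    rw [h0, mul_zero]
    exact Finset.expect_nonneg fun _ _ => K_nonneg _ _
  · have h1 : K n (j + 1) P = op (ell n) (ind n (j + 1)) P := by
      unfold K; rw [ind_of_not h]; ring
    have h2 : ∀ v, (1 - ind n (j + 1) (P * ell n v)) * op (ell n) (ind n (j + 1)) P ≤
        K n j (P * ell n v) := by
      intro v
      unfold K
      refine mul_le_mul_of_nonneg_left ?_ (by linarith [ind_le_one (j + 1) (P * ell n v)])
      refine Finset.expect_le_expect fun u _ => ?_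
      by_cases hu : Z n (j + 1) (P * ell n u)
      · have h3 : Z n j (P * ell n v * ell n u) := by
          rw [mul_right_comm]; exact hu v
        rw [ind_of h3]; exact ind_le_one _ _
      · rw [ind_of_not hu]; exact ind_nonneg _ _
    have h4 : 𝔼 v, (1 - ind n (j + 1) (P * ell n v)) * op (ell n) (ind n (j + 1)) P =
        (1 - op (ell n) (ind n (j + 1)) P) * op (ell n) (ind n (j + 1)) P := by
      rw [← Finset.expect_mul, Finset.expect_sub_distrib, Fintype.expect_const]
      rfl
    have h5 := Finset.expect_le_expect (s := Finset.univ) fun v _ => h2 v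
    rw [h4] at h5
    rw [h1]
    refine le_trans ?_ h5
    refine mul_le_mul_of_nonneg_right ?_ (op_ind_nonneg _ _)
    linarith [op_ind_le h]

open Classical in
/-- The tail inequality. -/
theorem K_tail (j : ℕ) (P : MvPolynomial (Fin n) F) :
    K n j P ≤ (1 / (Fintype.card F : ℝ)) ^ (j + 1) := by
  have hq : (0 : ℝ) < Fintype.card F := by exact_mod_cast Fintype.card_pos
  by_cases h : Z n (j + 1) P
  · have h0 : K n j P = 0 := by
      unfold K; rw [ind_of h]; ring
    rw [h0]; positivity
  · have h1 : K n j P = op (ell n) (ind n j) P := by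
      unfold K; rw [ind_of_not h]; ring
    rw [h1]
    obtain ⟨S, hS, hne⟩ := exists_monomial h
    unfold op
    rw [Fintype.expect_eq_sum_div_card]
    have h2 : ∑ u : Fin n → F, ind n j (P * ell n u) =
        ((Finset.univ.filter fun u : Fin n → F => Z n j (P * ell n u)).card : ℝ) := by
      unfold ind
      rw [Finset.sum_boole]
    rw [h2]
    have hSn : j + 1 ≤ n := by
      have := Finset.card_le_univ S
      rw [hS, Fintype.card_fin] at this
      exact this
    have h3 : (Finset.univ.filter fun u : Fin n → F => Z n j (P * ell n u)).card ≤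
        Fintype.card F ^ (n - (j + 1)) := by
      have h4 : Fintype.card ({i // i ∉ S} → F) = Fintype.card F ^ (n - (j + 1)) := by
        rw [Fintype.card_fun]
        congr 1
        rw [Fintype.card_subtype_compl, Fintype.card_fin, Fintype.card_coe, hS]
      rw [← h4, ← Finset.card_univ]
      refine Finset.card_le_card_of_injOn (fun u i => u i.1) (fun _ _ => by simp) ?_
      intro u hu v hv huv
      simp only [Finset.coe_filter, Finset.mem_univ, true_and, Set.mem_ofPred_eq] at hu hv
      have h5 : Z n j (P * ell n (u - v)) := (kerZ j P).sub_mem hu hv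
      have h6 := ker_supp hS hne h5 fun i hi => by
        have := congrFun huv ⟨i, hi⟩
        simp only at this
        rw [Pi.sub_apply, this, sub_self]
      exact sub_eq_zero.1 h6
    have h7 : (Fintype.card (Fin n → F) : ℝ) =
        (Fintype.card F : ℝ) ^ (n - (j + 1)) * (Fintype.card F : ℝ) ^ (j + 1) := by
      rw [Fintype.card_fun, Fintype.card_fin, ← pow_add]
      push_cast
      congr 1; omega
    rw [h7, div_le_iff₀ (by positivity)]
    calc ((Finset.univ.filter fun u : Fin n → F => Z n j (P * ell n u)).card : ℝ)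
        ≤ (Fintype.card F : ℝ) ^ (n - (j + 1)) := by exact_mod_cast h3
      _ = _ := by
        rw [one_div, inv_pow]
        field_simp

end Pool.Agent.H26perm
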